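import Pool.Agent.Helper66.HilbH

set_option autoImplicit false
open MeasureTheory Filter Set Topology
open scoped ENNReal NNReal

namespace Pool.Agent.Results.MP_945c9c_an.MeanZeroWeights

noncomputable section

/-- A weight: measurable, non-negative, locally integrable, not almost everywhere zero. -/
def IsWeight (U : ℝ → ℝ) : Prop :=
  Measurable U ∧ (∀ x, 0 ≤ U x) ∧ LocallyIntegrable U ∧ ¬ U =ᵐ[volume] 0

/-- The truncated Hilbert transform `(1/π) ∫_{|y-x|>δ} f(y)/(x-y) dy`. -/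
def truncH (f : ℝ → ℝ) (δ x : ℝ) : ℝ :=
  (1 / Real.pi) * ∫ y in {y | δ < |y - x|}, f y / (x - y)

/-- `|Hf(x)|`, computed as the upper limit of the absolute values of the truncations as `δ ↓ 0`.
For integrable `f` the principal value exists at almost every `x` and this is its absolute
value there. -/
def absHilbert (f : ℝ → ℝ) (x : ℝ) : ℝ≥0∞ := limsup (fun δ => ‖truncH f δ x‖ₑ) (𝓝[>] (0 : ℝ))

/-- At every point where the principal value exists, `absHilbert` is its absolute value. -/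
theorem absHilbert_eq {f : ℝ → ℝ} {x h : ℝ}
    (hx : Tendsto (fun δ => truncH f δ x) (𝓝[>] (0 : ℝ)) (𝓝 h)) : absHilbert f x = ‖h‖ₑ :=
  ((continuous_enorm.tendsto h).comp hx).limsup_eq

/-- `(∗)` for every integrable `f` of mean zero. -/
def Admissible (p : ℝ) (U : ℝ → ℝ) : Prop :=
  ∃ C : ℝ≥0, ∀ f : ℝ → ℝ, Integrable f → ∫ x, f x = 0 →
    ∫⁻ x, absHilbert f x ^ p * ENNReal.ofReal (U x) ≤
      C * ∫⁻ x, ‖f x‖ₑ ^ p * ENNReal.ofReal (U x)

/-- `(∗)` for every integrable `f`, with no mean-zero condition. -/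
def FullyAdmissible (p : ℝ) (W : ℝ → ℝ) : Prop :=
  ∃ C : ℝ≥0, ∀ f : ℝ → ℝ, Integrable f →
    ∫⁻ x, absHilbert f x ^ p * ENNReal.ofReal (W x) ≤
      C * ∫⁻ x, ‖f x‖ₑ ^ p * ENNReal.ofReal (W x)

/-- The Muckenhoupt condition `A_p`: `(∫_I W)(∫_I W^{-1/(p-1)})^{p-1} ≤ C |I|^p` for all bounded
intervals `I` (with `W^{-1/(p-1)} = ∞` where `W = 0`). -/
def MuckenhouptA (p : ℝ) (W : ℝ → ℝ) : Prop :=
  ∃ C : ℝ≥0, ∀ a b : ℝ, a < b →
    (∫⁻ x in Icc a b, ENNReal.ofReal (W x)) *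
      (∫⁻ x in Icc a b, ENNReal.ofReal (W x) ^ (-1 / (p - 1))) ^ (p - 1) ≤
        C * ENNReal.ofReal (b - a) ^ p

/-- A weight `U` is admissible if and only if one of the three kinds of weights
`U`, `U/(1+|x|)^p`, `U/|x-x₀|^p` (some real `x₀`) satisfies `(∗)` for all integrable functions;
and if `U` is admissible, then one of these weights is an `A_p` weight. -/
theorem result (p : ℝ) (hp : 1 < p) (U : ℝ → ℝ) (hU : IsWeight U) :
    (Admissible p U ↔
      (FullyAdmissible p U ∨ FullyAdmissible p (fun x => U x / (1 + |x|) ^ p) ∨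
        ∃ x₀ : ℝ, FullyAdmissible p (fun x => U x / |x - x₀| ^ p))) ∧
    (Admissible p U →
      (MuckenhouptA p U ∨ MuckenhouptA p (fun x => U x / (1 + |x|) ^ p) ∨
        ∃ x₀ : ℝ, MuckenhouptA p (fun x => U x / |x - x₀| ^ p))) :=
  ⟨Pool.Agent.Helper66.Hilb.main hp hU.1 hU.2.1 hU.2.2.1,
    Pool.Agent.Helper66.Hilb.necessity hp hU.1 hU.2.1 hU.2.2.1 hU.2.2.2⟩

end

end Pool.Agent.Results.MP_945c9c_an.MeanZeroWeights
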